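import Mathlib

/-!
Divisibility of a sum by commuting partial involutions (MP_448cb3_co).
-/

namespace Pool.Agent.GaussPoset.Win.K2

open Finset

section abs

variable {E J R : Type*} [DecidableEq E] [DecidableEq J] [CommRing R]

/-- commuting partial involutions on a set of configurations -/
structure Ivl (Ω : Finset E) (Act : E → Finset J) (σ : J → E → E) (b : J → E → Prop) (t : E → R)
    (u : J → E → R) (d : R) : Prop where
  mem : ∀ e ∈ Ω, ∀ j ∈ Act e, σ j e ∈ Ω
  act : ∀ e ∈ Ω, ∀ j ∈ Act e, Act (σ j e) = Act e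
  inv : ∀ e ∈ Ω, ∀ j ∈ Act e, σ j (σ j e) = e
  own : ∀ e ∈ Ω, ∀ j ∈ Act e, (b j (σ j e) ↔ ¬ b j e)
  oth : ∀ e ∈ Ω, ∀ j ∈ Act e, ∀ j' ∈ Act e, j' ≠ j → (b j' (σ j e) ↔ b j' e)
  wt : ∀ e ∈ Ω, ∀ j ∈ Act e, b j e → t (σ j e) = t e * u j e
  wu : ∀ e ∈ Ω, ∀ j ∈ Act e, ∀ j' ∈ Act e, j' ≠ j → u j' (σ j e) = u j' e
  dv : ∀ e ∈ Ω, ∀ j ∈ Act e, d ∣ 1 + u j e

variable {Ω : Finset E} {Act : E → Finset J} {σ : J → E → E} {b : J → E → Prop} {t : E → R}
  {u : J → E → R} {d : R}

open Classical in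
/-- the normalised configurations -/
noncomputable def Nrm (Ω : Finset E) (Act : E → Finset J) (b : J → E → Prop) (D : Finset J) :
    Finset E :=
  Ω.filter (fun e => ∀ j ∈ Act e ∩ D, b j e)

/-- the collected weight -/
def clw (Act : E → Finset J) (t : E → R) (u : J → E → R) (D : Finset J) (e : E) : R :=
  t e * ∏ j ∈ Act e ∩ D, (1 + u j e)

lemma mem_Nrm {D : Finset J} {e : E} :
    e ∈ Nrm Ω Act b D ↔ e ∈ Ω ∧ ∀ j ∈ Act e ∩ D, b j e := by
  classical
  unfold Nrm
  rw [mem_filter]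

lemma Ivl.step (I : Ivl Ω Act σ b t u d) {D : Finset J} {j0 : J} (hn : j0 ∉ D) :
    ∑ e ∈ Nrm Ω Act b D, clw Act t u D e =
      ∑ e ∈ Nrm Ω Act b (insert j0 D), clw Act t u (insert j0 D) e := by
  classical
  have inter : ∀ e : E, j0 ∉ Act e → Act e ∩ insert j0 D = Act e ∩ D := by
    intro e h
    ext y
    simp only [mem_inter, mem_insert]
    constructor
    · rintro ⟨h1, rfl | h2⟩
      · exact absurd h1 h
      · exact ⟨h1, h2⟩
    · rintro ⟨h1, h2⟩
      exact ⟨h1, Or.inr h2⟩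
  have inter' : ∀ e : E, j0 ∈ Act e → Act e ∩ insert j0 D = insert j0 (Act e ∩ D) := by
    intro e h
    ext y
    simp only [mem_inter, mem_insert]
    constructor
    · rintro ⟨h1, rfl | h2⟩
      · exact Or.inl rfl
      · exact Or.inr ⟨h1, h2⟩
    · rintro (rfl | ⟨h1, h2⟩)
      · exact ⟨h, Or.inl rfl⟩
      · exact ⟨h1, Or.inr h2⟩
  rw [← Finset.sum_filter_add_sum_filter_not (Nrm Ω Act b D) (fun e => j0 ∈ Act e),
    ← Finset.sum_filter_add_sum_filter_not (Nrm Ω Act b (insert j0 D)) (fun e => j0 ∈ Act e)]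
  congr 1
  · rw [← Finset.sum_filter_add_sum_filter_not
      ((Nrm Ω Act b D).filter (fun e => j0 ∈ Act e)) (fun e => b j0 e)]
    have hA : ((Nrm Ω Act b D).filter (fun e => j0 ∈ Act e)).filter (fun e => b j0 e) =
        (Nrm Ω Act b (insert j0 D)).filter (fun e => j0 ∈ Act e) := by
      ext e
      simp only [mem_filter, mem_Nrm]
      constructor
      · rintro ⟨⟨⟨h1, h2⟩, h3⟩, h4⟩
        refine ⟨⟨h1, ?_⟩, h3⟩
        rw [inter' e h3]
        intro y hy
        rcases mem_insert.1 hy with rfl | hy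
        · exact h4
        · exact h2 y hy
      · rintro ⟨⟨h1, h2⟩, h3⟩
        rw [inter' e h3] at h2
        exact ⟨⟨⟨h1, fun y hy => h2 y (mem_insert_of_mem hy)⟩, h3⟩, h2 j0 (mem_insert_self _ _)⟩
    rw [hA]
    have hmap : ∀ e ∈ Ω, j0 ∈ Act e → (∀ j ∈ Act e ∩ D, b j e) →
        ∀ j ∈ Act (σ j0 e) ∩ D, b j (σ j0 e) := by
      intro e he h0 h2 j hj
      rw [I.act e he j0 h0] at hj
      have hj2 := mem_inter.1 hj
      rw [I.oth e he j0 h0 j hj2.1 (by rintro rfl; exact hn hj2.2)]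
      exact h2 j hj
    have hB : ∑ e ∈ ((Nrm Ω Act b D).filter (fun e => j0 ∈ Act e)).filter
        (fun e => ¬ b j0 e), clw Act t u D e =
        ∑ e ∈ (Nrm Ω Act b (insert j0 D)).filter (fun e => j0 ∈ Act e),
          clw Act t u D e * u j0 e := by
      symm
      refine Finset.sum_bij' (fun e _ => σ j0 e) (fun e _ => σ j0 e) ?_ ?_ ?_ ?_ ?_
      · intro e he
        rw [← hA] at he
        simp only [mem_filter, mem_Nrm] at he ⊢
        obtain ⟨⟨⟨h1, h2⟩, h3⟩, h4⟩ := he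
        refine ⟨⟨⟨I.mem e h1 j0 h3, hmap e h1 h3 h2⟩, by rw [I.act e h1 j0 h3]; exact h3⟩, ?_⟩
        rw [I.own e h1 j0 h3]
        exact fun h => h h4
      · intro e he
        rw [← hA]
        simp only [mem_filter, mem_Nrm] at he ⊢
        obtain ⟨⟨⟨h1, h2⟩, h3⟩, h4⟩ := he
        refine ⟨⟨⟨I.mem e h1 j0 h3, hmap e h1 h3 h2⟩, by rw [I.act e h1 j0 h3]; exact h3⟩, ?_⟩
        rw [I.own e h1 j0 h3]
        exact h4
      · intro e he
        rw [← hA] at he
        simp only [mem_filter, mem_Nrm] at he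
        exact I.inv e he.1.1.1 j0 he.1.2
      · intro e he
        simp only [mem_filter, mem_Nrm] at he
        exact I.inv e he.1.1.1 j0 he.1.2
      · intro e he
        rw [← hA] at he
        simp only [mem_filter, mem_Nrm] at he
        obtain ⟨⟨⟨h1, h2⟩, h3⟩, h4⟩ := he
        unfold clw
        rw [I.act e h1 j0 h3, I.wt e h1 j0 h3 h4]
        have h5 : ∏ y ∈ Act e ∩ D, (1 + u y (σ j0 e)) = ∏ y ∈ Act e ∩ D, (1 + u y e) := by
          refine Finset.prod_congr rfl fun y hy => ?_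
          have hy2 := mem_inter.1 hy
          rw [I.wu e h1 j0 h3 y hy2.1 (by rintro rfl; exact hn hy2.2)]
        rw [h5]
        ring
    rw [hB, ← Finset.sum_add_distrib]
    refine Finset.sum_congr rfl fun e he => ?_
    rw [mem_filter] at he
    unfold clw
    rw [inter' e he.2, Finset.prod_insert]
    · ring
    · intro h
      exact hn (mem_inter.1 h).2
  · have hA : (Nrm Ω Act b D).filter (fun e => ¬ j0 ∈ Act e) =
        (Nrm Ω Act b (insert j0 D)).filter (fun e => ¬ j0 ∈ Act e) := by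
      ext e
      simp only [mem_filter, mem_Nrm]
      constructor
      · rintro ⟨⟨h1, h2⟩, h3⟩
        exact ⟨⟨h1, by rw [inter e h3]; exact h2⟩, h3⟩
      · rintro ⟨⟨h1, h2⟩, h3⟩
        rw [inter e h3] at h2
        exact ⟨⟨h1, h2⟩, h3⟩
    rw [hA]
    refine Finset.sum_congr rfl fun e he => ?_
    rw [mem_filter] at he
    unfold clw
    rw [inter e he.2]

lemma Ivl.all_steps (I : Ivl Ω Act σ b t u d) (D : Finset J) :
    ∑ e ∈ Ω, t e = ∑ e ∈ Nrm Ω Act b D, clw Act t u D e := by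
  classical
  induction D using Finset.induction_on with
  | empty =>
    have h1 : Nrm Ω Act b ∅ = Ω := by
      ext e
      rw [mem_Nrm]
      simp
    rw [h1]
    refine Finset.sum_congr rfl fun e _ => ?_
    unfold clw
    simp
  | insert y D hy ih => rw [ih, I.step hy]

/-- DIVISIBILITY of the sum by commuting partial involutions -/
theorem Ivl.dvd (I : Ivl Ω Act σ b t u d) {N : ℕ}
    (hN : ∀ e ∈ Ω, d ^ N ∣ t e * d ^ (Act e).card) : d ^ N ∣ ∑ e ∈ Ω, t e := by
  classical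
  rw [I.all_steps (Ω.biUnion Act)]
  refine Finset.dvd_sum fun e he => ?_
  rw [mem_Nrm] at he
  have h1 : Act e ∩ Ω.biUnion Act = Act e := by
    rw [Finset.inter_eq_left]
    intro y hy
    rw [mem_biUnion]
    exact ⟨e, he.1, hy⟩
  unfold clw
  rw [h1]
  refine (hN e he.1).trans (mul_dvd_mul_left _ ?_)
  rw [← Finset.prod_const]
  exact Finset.prod_dvd_prod_of_dvd _ _ fun y hy => I.dv e he.1 y hy

end abs

end Pool.Agent.GaussPoset.Win.K2
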