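import Pool.Agent.W_448pb_h63.PbC
import Pool.Agent.W_448p_h97.PaP

/-!
Per class identities at the window j (MP_448cb3_co, case B): weighted sums, with a weight which is
constant along the joins of a double and a single element.
-/

namespace Pool.Agent.GaussPoset.Win.K2

set_option linter.unusedSectionVars false

open Finset I2

universe u

variable {P : Type u} [Fintype P] [PartialOrder P] [DecidableEq P] {r i : ℕ} {e : P → ℕ}

variable {ι : Type*} [DecidableEq ι] {κ : P → ι} {K : Finset P} {psi : P → P}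

/-- sums with the value of a function fixed determine the weighted sums -/
lemma wsum_of_fib {I : Finset ι} {Z : Finset P} {f : ι → ℤ} {g : P → ℤ} {X : ι → ℤ} {Y : P → ℤ}
    (h : ∀ c : ℤ, ∑ a ∈ I.filter (fun a => f a = c), X a =
      ∑ z ∈ Z.filter (fun z => g z = c), Y z) :
    ∑ a ∈ I, f a * X a = ∑ z ∈ Z, g z * Y z := by
  classical
  have h1 : ∑ a ∈ I, f a * X a = ∑ c ∈ I.image f ∪ Z.image g,
      ∑ a ∈ I.filter (fun a => f a = c), f a * X a :=
    (Finset.sum_fiberwise_of_maps_to
      (fun a ha => mem_union_left _ (mem_image_of_mem f ha)) _).symm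
  have h2 : ∑ z ∈ Z, g z * Y z = ∑ c ∈ I.image f ∪ Z.image g,
      ∑ z ∈ Z.filter (fun z => g z = c), g z * Y z :=
    (Finset.sum_fiberwise_of_maps_to
      (fun a ha => mem_union_right _ (mem_image_of_mem g ha)) _).symm
  rw [h1, h2]
  refine Finset.sum_congr rfl fun c _ => ?_
  have h3 : ∑ a ∈ I.filter (fun a => f a = c), f a * X a =
      c * ∑ a ∈ I.filter (fun a => f a = c), X a := by
    rw [Finset.mul_sum]
    refine Finset.sum_congr rfl fun a ha => ?_
    rw [(mem_filter.1 ha).2]
  have h4 : ∑ z ∈ Z.filter (fun z => g z = c), g z * Y z =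
      c * ∑ z ∈ Z.filter (fun z => g z = c), Y z := by
    rw [Finset.mul_sum]
    refine Finset.sum_congr rfl fun a ha => ?_
    rw [(mem_filter.1 ha).2]
  rw [h3, h4, h c]

/-- the labels above a join -/
lemma SD.up (H : Gr P r) (hκ : Split (i + 1) κ) {z y v : P} (S : SD i κ z y v) {w : P}
    (hw : z ≤ w) (hl : lev w ≤ i + 1) : κ w = κ y ∨ κ w = κ v := by
  have lz := S.lz
  rcases eq_or_lt_of_le hw with h1 | h1
  · subst h1
    omega
  · obtain ⟨u, hu', huw⟩ := normb_exists_cov h1
    have hu := mem_uc.2 hu'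
    rw [S.huc, mem_insert, mem_singleton] at hu
    rcases hu with rfl | rfl
    · left
      exact (hκ.le _ huw (by rw [S.ly H])).symm
    · right
      exact (hκ.le _ huw (by rw [S.lv' H])).symm

/-- the weighted sums, without joins -/
theorem wsum_zero {X : ι → ℤ}
    (hcl : ∀ T0 T1 : Finset ι, T0 ∪ T1 = univ.image κ → Disjoint T0 T1 →
      (∀ z y v, SD i κ z y v → (κ y ∈ T0 ↔ κ v ∈ T0)) → ∑ a ∈ T0, X a = 0)
    {f : ι → ℤ} (hf : ∀ z y v, SD i κ z y v → f (κ y) = f (κ v)) :
    ∑ a ∈ univ.image κ, f a * X a = 0 := by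
  classical
  have h1 := wsum_of_fib (I := univ.image κ) (Z := (∅ : Finset P)) (f := f) (g := fun _ => 0)
    (X := X) (Y := fun _ => 0) (fun c => by
      rw [hcl ((univ.image κ).filter (fun a => f a = c))
        ((univ.image κ).filter (fun a => ¬ f a = c))
        (Finset.filter_union_filter_not_eq _ _) (Finset.disjoint_filter_filter_not _ _ _) ?_]
      · simp
      · intro z y v S
        rw [mem_filter, mem_filter, hf z y v S]
        exact ⟨fun h => ⟨mem_image_of_mem κ (mem_univ v), h.2⟩,
          fun h => ⟨mem_image_of_mem κ (mem_univ y), h.2⟩⟩)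
  rw [h1, Finset.sum_empty]

/-- THE WEIGHTED SUMS from the sums over the sets without joins to the complement -/
theorem wsum_classes (H : Gr P r) (hκ : Split (i + 1) κ) {X : ι → ℤ} {Y : P → ℤ}
    (hcl : ∀ T0 T1 : Finset ι, T0 ∪ T1 = univ.image κ → Disjoint T0 T1 →
      (∀ z y v, SD i κ z y v → (κ y ∈ T0 ↔ κ v ∈ T0)) →
      ∑ a ∈ T0, X a = ∑ z ∈ (Z2 i κ).filter (fun z => z ∈ eT (i + 1) κ T0), Y z)
    {f : ι → ℤ} {g : P → ℤ} (hf : ∀ z y v, SD i κ z y v → f (κ y) = f (κ v))
    (hg : ∀ z y v, SD i κ z y v → g z = f (κ y)) :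
    ∑ a ∈ univ.image κ, f a * X a = ∑ z ∈ Z2 i κ, g z * Y z := by
  classical
  refine wsum_of_fib fun c => ?_
  rw [hcl ((univ.image κ).filter (fun a => f a = c)) ((univ.image κ).filter (fun a => ¬ f a = c))
    (Finset.filter_union_filter_not_eq _ _) (Finset.disjoint_filter_filter_not _ _ _) ?_]
  · refine Finset.sum_congr ?_ fun _ _ => rfl
    ext z
    rw [mem_filter, mem_filter]
    refine and_congr_right fun hz => ?_
    obtain ⟨-, y, v, S⟩ := mem_Z2.1 hz
    rw [hg z y v S]
    constructor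
    · intro h
      exact (mem_filter.1 (mem_eT.1 h y (mem_uc.1 S.my).le (by rw [S.ly H]))).2
    · intro h
      rw [mem_eT]
      intro w hw hl
      rw [mem_filter]
      refine ⟨mem_image_of_mem κ (mem_univ w), ?_⟩
      rcases S.up H hκ hw hl with h1 | h1
      · rw [h1]
        exact h
      · rw [h1, ← hf z y v S]
        exact h
  · intro z y v S
    rw [mem_filter, mem_filter, hf z y v S]
    exact ⟨fun h => ⟨mem_image_of_mem κ (mem_univ v), h.2⟩,
      fun h => ⟨mem_image_of_mem κ (mem_univ y), h.2⟩⟩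

end Pool.Agent.GaussPoset.Win.K2

namespace Pool.Agent.GaussPoset.EK

set_option linter.unusedSectionVars false

open Finset Win St Polynomial Wd

universe u

variable {P : Type u} [Fintype P] [PartialOrder P] [DecidableEq P] {r j : ℕ}

variable {K : Finset P} {psi : P → P}

/-- there is no component with two stars -/
def No6 (P : Type u) [Fintype P] [PartialOrder P] [DecidableEq P] (j : ℕ) : Prop :=
  ∀ (t : Tops P) (m : ℕ) (x : ℕ → P) (c : ℕ → ℤ) (β : ℤ), RowB P j t m x c β → ¬ Pat6 m c β

section main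

variable (h : NJ P r j) (hj : 2 ≤ j) (R : Red P j K psi) (h6 : No6 P j)

include h hj h6

/-- without two stars every component is small -/
theorem NJ.small_all (t : Tops P) : Small j (topOf : P → Tops P) t := by
  obtain ⟨m, x, c, β, B⟩ := NJ.rowB h hj t
  exact (B.small h.g.H h.split).resolve_right (h6 t m x c β B)

include R

/-- THE CLASS SUMS IN CASE B without components with two stars: `f1`, `f2` are constant along the
joins of a double and a single element -/
theorem NJ.class_wsum {f1 f2 : Tops P → ℤ} {g : P → ℤ}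
    (hf1 : ∀ z y v, K2.SD j (topOf : P → Tops P) z y v → f1 (topOf y) = f1 (topOf v))
    (hf2 : ∀ z y v, K2.SD j (topOf : P → Tops P) z y v → f2 (topOf y) = f2 (topOf v))
    (hg : ∀ z y v, K2.SD j (topOf : P → Tops P) z y v → g z = f2 (topOf y)) :
    ∑ t : Tops P, f1 t * I2.w3 (I2.bb j (j + 1) (topOf : P → Tops P) t)
      (I2.VV j (j + 1) (topOf : P → Tops P) t) = 0 ∧
    ∑ t : Tops P, f2 t * I2.w3 (I2.bb j (j + 1) (topOf : P → Tops P) t)
      (I2.VV j (j + 1) (topOf : P → Tops P) t) ^ 2 =
      - (2 * ∑ z ∈ K2.Z2 j (topOf : P → Tops P), g z * Ek j K (K2.Tz z) 2) := by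
  classical
  have hjr : j ≤ r := by have := h.hr; omega
  have hsm := NJ.small_all h hj h6
  have hst : ∀ t : Tops P, K2.Star j (cext (j + 1) (topOf : P → Tops P) t) K :=
    fun t => K2.star_small h.g.H hjr h.split R (hsm t)
  have hcl := fun T0 T1 h01 hd hSD => K2.class_sums_star h.g.H hjr (NJ.noQ h hj)
    (fun m hm => h.g.good m (by omega)) h.split R.mat R.sub hst (T0 := T0) (T1 := T1) h01 hd hSD
  have hw6 : ∀ t : Tops P, I2.w6 (I2.bb j (j + 1) (topOf : P → Tops P) t)
      (I2.VV j (j + 1) (topOf : P → Tops P) t) = 0 := fun t =>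
    (K2.PG_star h.g.H hjr (NJ.noQ h hj) (fun m hm => h.g.good m (by omega)) h.split R.mat
      R.sub (hst t)).2
  have hHK := R.HK_of_small h.g.H hjr h.split hsm
  have hE3 : ∀ z ∈ K2.Z2 j (topOf : P → Tops P), Ek j K (K2.Tz z) 3 = 0 := by
    intro z hz
    obtain ⟨-, y, v, S⟩ := K2.mem_Z2.1 hz
    exact (K2.ek_SD hHK S).1
  have himg : univ.image (topOf : P → Tops P) = (univ : Finset (Tops P)) := by
    ext t
    simp only [mem_univ, iff_true]
    refine mem_image.2 ⟨(t : P), mem_univ _, ?_⟩
    exact Subtype.ext (Hul.top_unique (h.nj (by have := t.2; omega)) (topOf (t : P)).2 t.2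
      (le_topOf (t : P)) le_rfl)
  constructor
  · have h1 := K2.wsum_zero (κ := (topOf : P → Tops P)) (i := j) (f := f1)
      (X := fun t => I2.w3 (I2.bb j (j + 1) (topOf : P → Tops P) t)
        (I2.VV j (j + 1) (topOf : P → Tops P) t))
      (fun T0 T1 h01 hd hSD => (hcl T0 T1 h01 hd hSD).1) hf1
    rw [himg] at h1
    exact h1
  · have h2 := K2.wsum_classes (κ := (topOf : P → Tops P)) (i := j) h.g.H h.split (f := f2) (g := g)
      (X := fun t => I2.w3 (I2.bb j (j + 1) (topOf : P → Tops P) t)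
        (I2.VV j (j + 1) (topOf : P → Tops P) t) ^ 2)
      (Y := fun z => -(2 * Ek j K (K2.Tz z) 2)) (fun T0 T1 h01 hd hSD => by
        have h3 := (hcl T0 T1 h01 hd hSD).2
        have h4 : ∑ a ∈ T0, (I2.w3 (I2.bb j (j + 1) (topOf : P → Tops P) a)
            (I2.VV j (j + 1) (topOf : P → Tops P) a) ^ 2 -
            2 * I2.w6 (I2.bb j (j + 1) (topOf : P → Tops P) a)
              (I2.VV j (j + 1) (topOf : P → Tops P) a)) =
            ∑ a ∈ T0, I2.w3 (I2.bb j (j + 1) (topOf : P → Tops P) a)
            (I2.VV j (j + 1) (topOf : P → Tops P) a) ^ 2 := by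
          refine Finset.sum_congr rfl fun a _ => ?_
          rw [hw6 a]
          ring
        rw [← h4, h3, Finset.mul_sum, ← Finset.sum_neg_distrib]
        refine Finset.sum_congr rfl fun z hz => ?_
        rw [hE3 z (mem_filter.1 hz).1]
        ring) hf2 hg
    rw [himg] at h2
    rw [h2, Finset.mul_sum, ← Finset.sum_neg_distrib]
    refine Finset.sum_congr rfl fun z _ => ?_
    ring

end main

end Pool.Agent.GaussPoset.EK
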