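import Pool.Agent.W_448pb_h63.PbB
import Pool.Agent.W_448ua_h10.UaD

/-!
Per class identities at the window j (MP_448cb3_co, case B): the series of the configurations which
touch every label of `T`.
-/

namespace Pool.Agent.GaussPoset.Win.K2

set_option linter.unusedSectionVars false

open Finset I2

universe u

variable {P : Type u} [Fintype P] [PartialOrder P] [DecidableEq P] {r i : ℕ} {e : P → ℕ}

variable {ι : Type*} [DecidableEq ι] {κ : P → ι} {K : Finset P} {psi : P → P}

/-- two configurations which agree away from the near levels -/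
lemma sw_far (hM : Mat P i K psi) (H : Gr P r) (hκ : Split (i + 1) κ) {y : P}
    (hy : y ∈ SK i K psi e) {z : P} (hz : z ∉ cuni (i + 1) κ) : sw psi y e z = e z := by
  have h4 := (two_up H hκ hz).1
  have h5 := mem_SK.1 hy
  rw [sw_lev hM (mem_SK2.1 hy).1 (by omega) (by omega)]

section sums

variable (H : Gr P r) (hir : i ≤ r) (hq : NoQ P (i + 2)) (hg : ∀ m, m + 1 = i → Good P m)
  (hκ : Split (i + 1) κ) (hM : Mat P i K psi)
include H hir hq hg hκ hM

open Classical in
/-- divisibility of the coefficients from a bound for every configuration -/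
theorem XT_dvd {T : Finset ι} {Q : (P → ℕ) → Prop}
    (hQ : ∀ e f : P → ℕ, (∀ z, z ∉ cuni (i + 1) κ → e z = f z) → (Q e ↔ Q f)) {n m : ℕ}
    (hb : ∀ e : P → ℕ, ∑ x, e x = n → Spt (eT (i + 1) κ T) e → Tch (i + 1) κ e = T → Q e →
      AdmL i e → AdmU i e → Disjoint (AL i e) (AU i e) →
      (AL i e).card + (AU i e).card ≤ m + (pL i e + pU i e) + (SK i K psi e).card) :
    dd ^ ((st i (eT (i + 1) κ T)).card - m) ∣ PowerSeries.coeff n (XT i κ T Q) := by
  unfold XT
  rw [coeff_ZQ]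
  refine class_dvd hM H ?_ ?_
  · intro e he y hy
    simp only [Finset.mem_filter, mem_pa'] at he ⊢
    obtain ⟨⟨h1, h2⟩, h3, h4⟩ := he
    have h5 : ∀ z, z ∉ cuni (i + 1) κ → sw psi y e z = e z := fun z hz => sw_far hM H hκ hy hz
    refine ⟨⟨by rw [sum_sw]; exact h1, spt_sw hM H (part_eT H le_rfl hκ T) h2 hy⟩, ?_, ?_⟩
    · rw [Tch_congr h5]
      exact h3
    · exact (hQ _ _ h5).2 h4
  · intro e he
    simp only [Finset.mem_filter, mem_pa'] at he
    obtain ⟨⟨h1, h2⟩, h3, h4⟩ := he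
    exact tC_dvd fun hL hU hd => hb e h1 h2 h3 h4 hL hU hd

/-- (2a): the bound of slope two thirds -/
theorem XT_Wt3 {T : Finset ι} (hK : ∀ a ∈ T, Star i (cext (i + 1) κ a) K) {Q : (P → ℕ) → Prop}
    (hQ : ∀ e f : P → ℕ, (∀ z, z ∉ cuni (i + 1) κ → e z = f z) → (Q e ↔ Q f)) :
    Wt3 (st i (eT (i + 1) κ T)).card (XT i κ T Q) := by
  intro n
  refine XT_dvd H hir hq hg hκ hM hQ ?_
  intro e h1 h2 h3 _ hL hU hd
  have hT : ∀ a ∈ T, Tou i κ e a := by
    intro a ha
    rw [← h3, mem_Tch] at ha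
    obtain ⟨z, z1, z2, z3⟩ := ha
    exact ⟨z, z2, z1, z3⟩
  have hs : ∀ x, lev x ≤ i + 1 → 1 ≤ e x → κ x ∈ T := by
    intro x hx h0
    have h4 : x ∈ eT (i + 1) κ T := by
      by_contra h5
      have := h2 x h5
      omega
    exact mem_eT.1 h4 x le_rfl hx
  have h4 := slope_T H hir hq hg hκ hM hK hs hL hU hd (δ := 0)
    (by have := card_touch H hκ hq hL hT; omega)
  rw [h1] at h4
  omega

/-- (2s): the strict bound for the configurations which leave a class -/
theorem XT_Ws3 {T : Finset ι} (hK : ∀ a ∈ T, Star i (cext (i + 1) κ a) K)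
    {T0 T1 : Finset ι} (h01 : T0 ∪ T1 = univ.image κ)
    (hSD : ∀ z y v, SD i κ z y v → (κ y ∈ T0 ↔ κ v ∈ T0)) :
    Ws3 (st i (eT (i + 1) κ T)).card (XT i κ T (Cr2 (i + 1) κ T1 T0)) := by
  classical
  have h01' : T1 ∪ T0 = univ.image κ := by rw [union_comm]; exact h01
  have hc : Coar i κ (fun x => decide (κ x ∈ T0)) := by
    refine ⟨?_, ?_, ?_⟩
    · intro x y hxy hl
      change decide (κ x ∈ T0) = decide (κ y ∈ T0)
      rw [hκ hxy hl]
    · intro x y h
      change decide (κ x ∈ T0) = decide (κ y ∈ T0)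
      rw [h]
    · intro z y v S
      change decide (κ y ∈ T0) = decide (κ v ∈ T0)
      rw [decide_eq_decide]
      exact hSD z y v S
  have hcr : ∀ z, z ∉ eT (i + 1) κ T1 → z ∉ eT (i + 1) κ T0 →
      z ∉ cuni (i + 1) (fun x => decide (κ x ∈ T0)) := by
    intro z z1 z0 h
    unfold cuni at h
    rw [mem_biUnion] at h
    obtain ⟨b, -, hb⟩ := h
    rw [mem_cext] at hb
    rcases b with _ | _
    · apply z1
      rw [mem_eT]
      intro y hy hl
      have h1 := hb y hy hl
      rw [decide_eq_false_iff_not] at h1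
      have h2 : κ y ∈ T0 ∪ T1 := by
        rw [h01]
        exact mem_image_of_mem κ (mem_univ y)
      exact (mem_union.1 h2).resolve_left h1
    · apply z0
      rw [mem_eT]
      intro y hy hl
      have h1 := hb y hy hl
      rw [decide_eq_true_iff] at h1
      exact h1
  intro n
  constructor
  · refine XT_dvd H hir hq hg hκ hM (Cr2_congr h01') ?_
    intro e h1 h2 h3 h4 hL hU hd
    have hT : ∀ a ∈ T, Tou i κ e a := by
      intro a ha
      rw [← h3, mem_Tch] at ha
      obtain ⟨z, z1, z2, z3⟩ := ha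
      exact ⟨z, z2, z1, z3⟩
    have hs : ∀ x, lev x ≤ i + 1 → 1 ≤ e x → κ x ∈ T := by
      intro x hx h0
      have h4 : x ∈ eT (i + 1) κ T := by
        by_contra h5
        have := h2 x h5
        omega
      exact mem_eT.1 h4 x le_rfl hx
    obtain ⟨z, z0, z1, z2⟩ := h4
    have h5 := slope_T H hir hq hg hκ hM hK hs hL hU hd (δ := 1)
      (card_touch_lt H hκ hq hL hT hc (hcr z z1 z2) z0)
    rw [h1] at h5
    omega
  · rintro rfl
    unfold XT
    rw [coeff_ZQ]
    refine Finset.sum_eq_zero fun e he => ?_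
    exfalso
    simp only [Finset.mem_filter, mem_pa'] at he
    obtain ⟨⟨h1, -⟩, -, z, z0, -, -⟩ := he
    rw [Finset.sum_eq_zero_iff] at h1
    have := h1 z (mem_univ z)
    omega

end sums

/-- the own series of a label with a star -/
theorem own_Wt3 (H : Gr P r) (hir : i ≤ r) (hq : NoQ P (i + 2))
    (hg : ∀ m, m + 1 = i → Good P m) (hκ : Split (i + 1) κ) (hM : Mat P i K psi)
    (hKs : K ⊆ dbL P i ∪ dbU P i) {a : ι} (hs : Star i (cext (i + 1) κ a) K) :
    Wt3 (st i (cext (i + 1) κ a)).card (ZS i (cext (i + 1) κ a)) := by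
  have hPG := (PG_star H hir hq hg hκ hM hKs hs).1
  have hC : Part (i + 1) (cext (i + 1) κ a) := part_cext H le_rfl hκ a
  have hcl := K_class H hir hq hg hM hC hs
  intro n
  rw [coeff_ZS]
  rcases Nat.lt_or_ge n 2 with h | h
  · have h1 := hPG n (by omega)
    unfold bb VV gd at h1
    rw [coeff_ZS] at h1
    interval_cases n
    · simpa using h1
    · simpa using h1
  · exact (pow_dvd_pow dd (by omega)).trans (hcl n)

/-- THE CLASS SUMS: for a set `T0` of labels without joins (double, single) to its complement,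
if every label has a star -/
theorem class_sums_star (H : Gr P r) (hir : i ≤ r) (hq : NoQ P (i + 2))
    (hg : ∀ m, m + 1 = i → Good P m) (hκ : Split (i + 1) κ) (hM : Mat P i K psi)
    (hK : K ⊆ dbL P i ∪ dbU P i) (hs : ∀ a, Star i (cext (i + 1) κ a) K)
    {T0 T1 : Finset ι} (h01 : T0 ∪ T1 = univ.image κ) (hd : Disjoint T0 T1)
    (hSD : ∀ z y v, SD i κ z y v → (κ y ∈ T0 ↔ κ v ∈ T0)) :
    ∑ a ∈ T0, w3 (bb i (i + 1) κ a) (VV i (i + 1) κ a) = 0 ∧
    ∑ a ∈ T0, (w3 (bb i (i + 1) κ a) (VV i (i + 1) κ a) ^ 2 -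
      2 * w6 (bb i (i + 1) κ a) (VV i (i + 1) κ a)) =
      - (2 * ∑ z ∈ (Z2 i κ).filter (fun z => z ∈ eT (i + 1) κ T0),
        (EK.Ek i K (Tz z) 3 + EK.Ek i K (Tz z) 2)) :=
  class_sums H hir hq hg hκ hM hK (fun a _ => (PG_star H hir hq hg hκ hM hK (hs a)).1)
    (fun T _ _ => XT_Wt3 H hir hq hg hκ hM (fun a _ => hs a) (fun _ _ _ => Iff.rfl))
    (fun a _ => own_Wt3 H hir hq hg hκ hM hK (hs a)) h01 hd
    (fun T _ _ => XT_Ws3 H hir hq hg hκ hM (fun a _ => hs a) h01 hSD) hSD

end Pool.Agent.GaussPoset.Win.K2
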