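import Pool.Agent.W_448so_h63.GK

/-!
Per class identities at the window j (MP_448cb3_co, case B): the count of the bad elements of the
label `a`.
-/

namespace Pool.Agent.GaussPoset.Win.K2

set_option linter.unusedSectionVars false

open Finset I2

universe u

variable {P : Type u} [Fintype P] [PartialOrder P] [DecidableEq P] {r i : ℕ} {e : P → ℕ}

variable {ι : Type*} [DecidableEq ι] {κ : P → ι} {K : Finset P} {psi : P → P}

section lab

variable (H : Gr P r) (hir : i ≤ r) (hq : NoQ P (i + 2)) (hg : ∀ m, m + 1 = i → Good P m)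
include H hir hq hg

lemma lev_bN {y : P} (hy : y ∈ bN i e) : lev y ≤ i + 1 := by
  unfold bN at hy
  rcases mem_union.1 hy with h | h
  · have := (bL_data H hir hq hg h).1
    omega
  · have := (bU_data H hir hq hg h).1
    omega

lemma ns_lab (hκ : Split (i + 1) κ) {k x : P} (hk : k ∈ bN i e) (hx : x ∈ ns i k) :
    κ x = κ k := by
  unfold bN at hk
  rcases mem_union.1 hk with h | h
  · obtain ⟨k1, -, -, k4, -, -⟩ := bL_data H hir hq hg h
    rw [k4] at hx
    exact (hκ (mem_uc.1 hx) (by omega)).symm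
  · obtain ⟨k1, -, -, k4, -, -⟩ := bU_data H hir hq hg h
    rw [k4] at hx
    have := lev_dc H hx
    exact hκ (mem_dc.1 hx) (by omega)

end lab

/-- the count of the bad elements of a star and of the full sites -/
theorem star_loc (H : Gr P r) (hir : i ≤ r) (hq : NoQ P (i + 2))
    (hg : ∀ m, m + 1 = i → Good P m) (hκ : Split (i + 1) κ) (hM : Mat P i K psi) {a : ι}
    (hK : Star i (cext (i + 1) κ a) K)
    (hd : Disjoint (AL i e) (AU i e)) {XL XU : Finset P}
    (hXL : ∀ x ∈ XL, lev x = i ∧ 1 ≤ e x ∧ (∃ y, y ∈ dc x) ∧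
        ∀ y ∈ dc x, y ∈ bL i e ∧ ∃ z ∈ dc y, 1 ≤ e z)
    (hXU : ∀ x ∈ XU, lev x = i ∧ 1 ≤ e x ∧ (∃ y, y ∈ uc x) ∧
        ∀ y ∈ uc x, y ∈ bU i e ∧ ∃ z ∈ uc y, 1 ≤ e z) :
    ((KB i K e).filter (fun x => κ x = a)).card + (XL.filter (fun x => κ x = a)).card +
      (XU.filter (fun x => κ x = a)).card ≤ ∑ x ∈ (lv P i).filter (fun x => κ x = a), e x + 1 := by
  classical
  have hC : ∀ y, y ∈ bN i e → κ y = a → y ∈ cext (i + 1) κ a := by
    intro y hy hk
    exact mem_cext_of_le hκ (lev_bN H hir hq hg hy) hk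
  have hKB : ∀ k ∈ (KB i K e).filter (fun x => κ x = a),
      k ∈ K ∧ k ∈ cext (i + 1) κ a ∧ k ∈ bN i e ∧ κ k = a := by
    intro k hk
    rw [mem_filter, mem_KB] at hk
    have h1 : k ∈ bN i e := by
      unfold bN
      rcases hk.1.2 with h | h
      · exact mem_union_left _ h.1
      · exact mem_union_right _ h.1
    exact ⟨hk.1.1, hC k h1 hk.2, h1, hk.2⟩
  have hlab : ∀ {k x : P}, k ∈ bN i e → x ∈ ns i k → κ x = κ k := fun hk hx =>
    ns_lab H hir hq hg hκ hk hx
  -- elements of `KB` are not next to full sites of their side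
  have P1 : ∀ x ∈ XL, ∀ k ∈ KB i K e, x ∈ ns i k → k ∈ bU i e ∧ k ∈ uc x := by
    intro x hx k hk hxk
    obtain ⟨l1, -, -, hx2⟩ := hXL x hx
    rw [mem_KB] at hk
    rcases hk.2 with ⟨h, h0⟩ | ⟨h, h0⟩
    · obtain ⟨k1, -, -, k4, -, -⟩ := bL_data H hir hq hg h
      rw [k4] at hxk
      obtain ⟨z, hz, hz1⟩ := (hx2 k (mem_dc.2 (mem_uc.1 hxk))).2
      have := h0 z hz
      omega
    · obtain ⟨k1, -, -, k4, -, -⟩ := bU_data H hir hq hg h
      rw [k4] at hxk
      exact ⟨h, mem_uc.2 (mem_dc.1 hxk)⟩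
  have P2 : ∀ x ∈ XU, ∀ k ∈ KB i K e, x ∈ ns i k → k ∈ bL i e ∧ k ∈ dc x := by
    intro x hx k hk hxk
    obtain ⟨l1, -, -, hx2⟩ := hXU x hx
    rw [mem_KB] at hk
    rcases hk.2 with ⟨h, h0⟩ | ⟨h, h0⟩
    · obtain ⟨k1, -, -, k4, -, -⟩ := bL_data H hir hq hg h
      rw [k4] at hxk
      exact ⟨h, mem_dc.2 (mem_uc.1 hxk)⟩
    · obtain ⟨k1, -, -, k4, -, -⟩ := bU_data H hir hq hg h
      rw [k4] at hxk
      obtain ⟨z, hz, hz1⟩ := (hx2 k (mem_uc.2 (mem_dc.1 hxk))).2
      have := h0 z hz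
      omega
  -- the partner of a matched element
  have Q1 : ∀ y ∈ bL i e, y ∉ K → ∀ x ∈ ns i y, psi y ∈ uc x ∧ psi y ∉ K ∧
      ns i (psi y) = ns i y := by
    intro y hy hyK x hx
    obtain ⟨k1, k2, -, k4, -, -⟩ := bL_data H hir hq hg hy
    obtain ⟨p1, p2, -, p4⟩ := psi_low hM (mem_dbL'.2 ⟨k1, k2⟩) hyK
    have hl := mem_dbU'.1 p1
    rw [k4] at hx
    refine ⟨?_, p4, ?_⟩
    · rw [mem_uc, ← mem_dc, p2]
      exact hx
    · rw [k4, ← p2]
      unfold ns
      rw [if_neg (by omega)]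
  have Q2 : ∀ y ∈ bU i e, y ∉ K → ∀ x ∈ ns i y, psi y ∈ dc x ∧ psi y ∉ K ∧
      ns i (psi y) = ns i y := by
    intro y hy hyK x hx
    obtain ⟨k1, k2, -, k4, -, -⟩ := bU_data H hir hq hg hy
    obtain ⟨p1, p2, -, p4⟩ := psi_up hM (mem_dbU'.2 ⟨k1, k2⟩) hyK
    have hl := mem_dbL'.1 p1
    rw [k4] at hx
    refine ⟨?_, p4, ?_⟩
    · rw [mem_dc, ← mem_uc, p2]
      exact hx
    · rw [k4, ← p2]
      unfold ns
      rw [if_pos (by omega)]
  have bLN : ∀ y ∈ bL i e, y ∈ bN i e := fun y hy => mem_union_left _ hy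
  have bUN : ∀ y ∈ bU i e, y ∈ bN i e := fun y hy => mem_union_right _ hy
  -- a labelled common site of two elements of `KB` is not full
  have R1 : ∀ k ∈ (KB i K e).filter (fun x => κ x = a),
      ∀ k' ∈ (KB i K e).filter (fun x => κ x = a), k ≠ k' → ∀ q, q ∈ ns i k → q ∈ ns i k' →
      q ∉ XL := by
    intro k hk k' hk' hne q hqk hqk' hqX
    obtain ⟨u1, u2⟩ := P1 q hqX k (mem_filter.1 hk).1 hqk
    obtain ⟨u1', u2'⟩ := P1 q hqX k' (mem_filter.1 hk').1 hqk'
    have hqa : κ q = a := by rw [hlab (hKB k hk).2.2.1 hqk, (hKB k hk).2.2.2]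
    obtain ⟨lq, -, ⟨y, hy⟩, hyq⟩ := hXL q hqX
    have hyb := (hyq y hy).1
    obtain ⟨y1, y2, -, y4, -, -⟩ := bL_data H hir hq hg hyb
    have hqy : q ∈ ns i y := by
      rw [y4]
      exact mem_uc.2 (mem_dc.1 hy)
    have hluk := (bU_data H hir hq hg u1).1
    have hluk' := (bU_data H hir hq hg u1').1
    have hyK : y ∈ K := by
      by_contra hyK
      obtain ⟨q1, q2, q3⟩ := Q1 y hyb hyK q hqy
      have h2 : ({k, k', psi y} : Finset P) ⊆ uc q := by
        intro s hs
        rw [mem_insert, mem_insert, mem_singleton] at hs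
        rcases hs with rfl | rfl | rfl <;> assumption
      have h3 := card_le_card h2
      have h4 := uc_card_le H q
      rw [card_insert_of_notMem, card_pair] at h3
      · omega
      · rintro rfl
        exact q2 (hKB _ hk').1
      · rw [mem_insert, mem_singleton]
        rintro (h5 | h5)
        · exact hne h5
        · rw [← h5] at q2
          exact q2 (hKB _ hk).1
    have hyk : y ≠ k := by rintro rfl; omega
    have hyk' : y ≠ k' := by rintro rfl; omega
    have hya : κ y = a := by rw [← hlab (bLN y hyb) hqy, hqa]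
    rcases hK.three y hyK (hC y (bLN y hyb) hya) k (hKB k hk).1 (hKB k hk).2.1 k' (hKB k' hk').1
      (hKB k' hk').2.1 hyk hyk' hne q hqy hqk hqk' with h | h | h
    · exact bad_ns_ne H hir hq hg hd (bLN y hyb) (hKB k hk).2.2.1 hyk h
    · exact bad_ns_ne H hir hq hg hd (bLN y hyb) (hKB k' hk').2.2.1 hyk' h
    · exact bad_ns_ne H hir hq hg hd (hKB k hk).2.2.1 (hKB k' hk').2.2.1 hne h
  have R2 : ∀ k ∈ (KB i K e).filter (fun x => κ x = a),
      ∀ k' ∈ (KB i K e).filter (fun x => κ x = a), k ≠ k' → ∀ q, q ∈ ns i k → q ∈ ns i k' →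
      q ∉ XU := by
    intro k hk k' hk' hne q hqk hqk' hqX
    obtain ⟨u1, u2⟩ := P2 q hqX k (mem_filter.1 hk).1 hqk
    obtain ⟨u1', u2'⟩ := P2 q hqX k' (mem_filter.1 hk').1 hqk'
    have hqa : κ q = a := by rw [hlab (hKB k hk).2.2.1 hqk, (hKB k hk).2.2.2]
    obtain ⟨lq, -, ⟨y, hy⟩, hyq⟩ := hXU q hqX
    have hyb := (hyq y hy).1
    obtain ⟨y1, y2, -, y4, -, -⟩ := bU_data H hir hq hg hyb
    have hqy : q ∈ ns i y := by
      rw [y4]
      exact mem_dc.2 (mem_uc.1 hy)
    have hluk := (bL_data H hir hq hg u1).1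
    have hluk' := (bL_data H hir hq hg u1').1
    have hyK : y ∈ K := by
      by_contra hyK
      obtain ⟨q1, q2, q3⟩ := Q2 y hyb hyK q hqy
      have h2 : ({k, k', psi y} : Finset P) ⊆ dc q := by
        intro s hs
        rw [mem_insert, mem_insert, mem_singleton] at hs
        rcases hs with rfl | rfl | rfl <;> assumption
      have h3 := card_le_card h2
      have h4 := dc_card_le H q
      rw [card_insert_of_notMem, card_pair] at h3
      · omega
      · rintro rfl
        exact q2 (hKB _ hk').1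
      · rw [mem_insert, mem_singleton]
        rintro (h5 | h5)
        · exact hne h5
        · rw [← h5] at q2
          exact q2 (hKB _ hk).1
    have hyk : y ≠ k := by rintro rfl; omega
    have hyk' : y ≠ k' := by rintro rfl; omega
    have hya : κ y = a := by rw [← hlab (bUN y hyb) hqy, hqa]
    rcases hK.three y hyK (hC y (bUN y hyb) hya) k (hKB k hk).1 (hKB k hk).2.1 k' (hKB k' hk').1
      (hKB k' hk').2.1 hyk hyk' hne q hqy hqk hqk' with h | h | h
    · exact bad_ns_ne H hir hq hg hd (bUN y hyb) (hKB k hk).2.2.1 hyk h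
    · exact bad_ns_ne H hir hq hg hd (bUN y hyb) (hKB k' hk').2.2.1 hyk' h
    · exact bad_ns_ne H hir hq hg hd (hKB k hk).2.2.1 (hKB k' hk').2.2.1 hne h
  -- at most two elements of `KB`
  have T3 : ((KB i K e).filter (fun x => κ x = a)).card ≤ 2 := by
    by_contra hc
    obtain ⟨k, k', k'', hk, hk', hk'', h1, h2, h3⟩ := Finset.two_lt_card_iff.1
      (show 2 < ((KB i K e).filter (fun x => κ x = a)).card by omega)
    obtain ⟨a1, a2, a3, -⟩ := hKB k hk
    obtain ⟨b1, b2, b3, -⟩ := hKB k' hk'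
    obtain ⟨c1, c2, c3, -⟩ := hKB k'' hk''
    obtain ⟨q, q1, q2⟩ := hK.two k a1 a2 k' b1 b2 h1
    obtain ⟨q', q1', q2'⟩ := hK.two k a1 a2 k'' c1 c2 h2
    have e1 := bad_disj H hir hq hg hd a3 b3 h1 q1 q2
    have e2 := bad_disj H hir hq hg hd a3 c3 h2 q1' q2'
    obtain ⟨s, ha, ha0, hall⟩ := bad_two H hir hq hg a3 q1 (by omega)
    have hqq : q' = q := by
      rcases hall q' q1' with h | h
      · exact h
      · rw [h] at e2
        exact absurd ha0 e2
    rw [hqq] at q2'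
    rcases hK.three k a1 a2 k' b1 b2 k'' c1 c2 h1 h2 h3 q q1 q2 q2' with h | h | h
    · exact bad_ns_ne H hir hq hg hd a3 b3 h1 h
    · exact bad_ns_ne H hir hq hg hd a3 c3 h2 h
    · exact bad_ns_ne H hir hq hg hd b3 c3 h3 h
  -- sets of labelled sites
  have hsum : ∀ S : Finset P, (∀ x ∈ S, (lev x = i ∧ 1 ≤ e x) ∧ κ x = a) →
      S.card ≤ ∑ x ∈ (lv P i).filter (fun x => κ x = a), e x := by
    intro S hS
    rw [Finset.card_eq_sum_ones]
    refine le_trans (Finset.sum_le_sum (g := fun x => e x) fun x hx => (hS x hx).1.2) ?_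
    exact Finset.sum_le_sum_of_subset fun x hx =>
      mem_filter.2 ⟨mem_lv.2 (hS x hx).1.1, (hS x hx).2⟩
  obtain ⟨XA, hXA⟩ : ∃ XA : Finset P, XA = XL.filter (fun x => κ x = a) := ⟨_, rfl⟩
  obtain ⟨YA, hYA⟩ : ∃ YA : Finset P, YA = XU.filter (fun x => κ x = a) := ⟨_, rfl⟩
  have mXA : ∀ {x : P}, x ∈ XA ↔ x ∈ XL ∧ κ x = a := by intro x; rw [hXA, mem_filter]
  have mYA : ∀ {x : P}, x ∈ YA ↔ x ∈ XU ∧ κ x = a := by intro x; rw [hYA, mem_filter]
  rw [← hXA, ← hYA]
  have hUn : ∀ x ∈ XA ∪ YA, (lev x = i ∧ 1 ≤ e x) ∧ κ x = a := by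
    intro x hx
    rcases mem_union.1 hx with h | h
    · have h := mXA.1 h
      exact ⟨⟨(hXL x h.1).1, (hXL x h.1).2.1⟩, h.2⟩
    · have h := mYA.1 h
      exact ⟨⟨(hXU x h.1).1, (hXU x h.1).2.1⟩, h.2⟩
  have hcu := Finset.card_union_add_card_inter XA YA
  by_cases hY : XA ∩ YA = ∅
  · rw [hY, card_empty] at hcu
    rcases Nat.lt_or_ge ((KB i K e).filter (fun x => κ x = a)).card 2 with h2 | h2
    · have := hsum _ hUn
      omega
    · obtain ⟨k, hk, k', hk', hne⟩ := Finset.one_lt_card.1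
        (by omega : 1 < ((KB i K e).filter (fun x => κ x = a)).card)
      obtain ⟨a1, a2, a3, a4⟩ := hKB k hk
      obtain ⟨b1, b2, b3, -⟩ := hKB k' hk'
      obtain ⟨q, q1, q2⟩ := hK.two k a1 a2 k' b1 b2 hne
      have e1 := bad_disj H hir hq hg hd a3 b3 hne q1 q2
      have hq' : q ∉ XA ∪ YA := by
        rw [mem_union]
        rintro (h | h)
        · exact R1 k hk k' hk' hne q q1 q2 (mXA.1 h).1
        · exact R2 k hk k' hk' hne q q1 q2 (mYA.1 h).1
      have h3 := hsum (insert q (XA ∪ YA)) (by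
        intro x hx
        rcases mem_insert.1 hx with rfl | h
        · exact ⟨⟨(bN_data H hir hq hg a3).2.2.2 x q1, by omega⟩, by rw [hlab a3 q1, a4]⟩
        · exact hUn x h)
      rw [card_insert_of_notMem hq'] at h3
      omega
  · -- doubly full sites
    have hYx : ∀ x ∈ XA ∩ YA, ∃ y w s b, y ∈ K ∧ y ∈ bN i e ∧ w ∈ K ∧ w ∈ bN i e ∧ y ≠ w ∧
        x ∈ ns i y ∧ x ∈ ns i w ∧ s ∈ ns i y ∧ b ∈ ns i w ∧ e s = 0 ∧ e b = 0 ∧ s ≠ b ∧
        (∀ t ∈ ns i y, t = x ∨ t = s) ∧ (∀ t ∈ ns i w, t = x ∨ t = b) ∧ κ y = a ∧ κ w = a := by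
      intro x hx
      rw [mem_inter, mXA, mYA] at hx
      obtain ⟨l1, x1, ⟨y, hy⟩, hxL⟩ := hXL x hx.1.1
      obtain ⟨-, -, ⟨w, hw⟩, hxU⟩ := hXU x hx.2.1
      have hyb := (hxL y hy).1
      have hwb := (hxU w hw).1
      obtain ⟨y1, -, -, y4, -, -⟩ := bL_data H hir hq hg hyb
      obtain ⟨w1, -, -, w4, -, -⟩ := bU_data H hir hq hg hwb
      have hxy : x ∈ ns i y := by rw [y4]; exact mem_uc.2 (mem_dc.1 hy)
      have hxw : x ∈ ns i w := by rw [w4]; exact mem_dc.2 (mem_uc.1 hw)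
      have hyK : y ∈ K := by
        by_contra hyK
        obtain ⟨q1, q2, q3⟩ := Q1 y hyb hyK x hxy
        have h5 := (hxU _ q1).1
        refine bad_ns_ne H hir hq hg hd (bUN _ h5) (bLN y hyb) ?_ q3
        intro h6
        have h7 := (bU_data H hir hq hg h5).1
        rw [h6] at h7
        omega
      have hwK : w ∈ K := by
        by_contra hwK
        obtain ⟨q1, q2, q3⟩ := Q2 w hwb hwK x hxw
        have h5 := (hxL _ q1).1
        refine bad_ns_ne H hir hq hg hd (bLN _ h5) (bUN w hwb) ?_ q3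
        intro h6
        have h7 := (bL_data H hir hq hg h5).1
        rw [h6] at h7
        omega
      have hyw : y ≠ w := by rintro rfl; omega
      obtain ⟨s, ha, ha0, hay⟩ := bad_two H hir hq hg (bLN y hyb) hxy x1
      obtain ⟨b, hb, hb0, hbw⟩ := bad_two H hir hq hg (bUN w hwb) hxw x1
      refine ⟨y, w, s, b, hyK, bLN y hyb, hwK, bUN w hwb, hyw, hxy, hxw, ha, hb, ha0, hb0, ?_,
        hay, hbw, by rw [← hlab (bLN y hyb) hxy, hx.1.2], by rw [← hlab (bUN w hwb) hxw, hx.1.2]⟩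
      rintro rfl
      exact bad_disj H hir hq hg hd (bLN y hyb) (bUN w hwb) hyw ha hb ha0
    have hone : (XA ∩ YA).card ≤ 1 := by
      rw [Finset.card_le_one]
      intro x hx x' hx'
      by_contra hne
      obtain ⟨y, w, s0, b, yK, yb, wK, wb, hyw, hxy, hxw, ha, hb, a0, b0, hab, hay, hbw, kay,
        kaw⟩ := hYx x hx
      obtain ⟨y', w', s', b', yK', yb', wK', wb', hyw', hxy', hxw', ha', hb', a0', b0', hab',
        hay', hbw', kay', kaw'⟩ := hYx x' hx'
      have x1 : 1 ≤ e x := (hXL x (mXA.1 (mem_inter.1 hx).1).1).2.1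
      have x1' : 1 ≤ e x' := (hXL x' (mXA.1 (mem_inter.1 hx').1).1).2.1
      have n1 : y' ≠ y := by
        rintro rfl
        rcases hay x' hxy' with h | h
        · exact hne h.symm
        · rw [h] at x1'
          omega
      have n2 : y' ≠ w := by
        rintro rfl
        rcases hbw x' hxy' with h | h
        · exact hne h.symm
        · rw [h] at x1'
          omega
      obtain ⟨s, s1, s2⟩ := hK.two y yK (hC y yb kay) y' yK' (hC y' yb' kay') (Ne.symm n1)
      obtain ⟨t, t1, t2⟩ := hK.two w wK (hC w wb kaw) y' yK' (hC y' yb' kay') (Ne.symm n2)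
      have hs' : s = s0 ∧ s = s' := by
        rcases hay s s1 with h | h <;> rcases hay' s s2 with h' | h'
        · exact absurd (h.symm.trans h') hne
        · rw [h] at h'
          rw [h'] at x1
          omega
        · rw [h] at h'
          rw [← h'] at x1'
          omega
        · exact ⟨h, h'⟩
      have ht' : t = b ∧ t = s' := by
        rcases hbw t t1 with h | h <;> rcases hay' t t2 with h' | h'
        · exact absurd (h.symm.trans h') hne
        · rw [h] at h'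
          rw [h'] at x1
          omega
        · rw [h] at h'
          rw [← h'] at x1'
          omega
        · exact ⟨h, h'⟩
      apply hab
      rw [← hs'.1, ← ht'.1, hs'.2, ht'.2]
    have hKB0 : (KB i K e).filter (fun x => κ x = a) = ∅ := by
      rw [Finset.eq_empty_iff_forall_notMem]
      intro k hk
      obtain ⟨x, hx⟩ := Finset.nonempty_iff_ne_empty.2 hY
      obtain ⟨y, w, s0, b, yK, yb, wK, wb, hyw, hxy, hxw, ha, hb, a0, b0, hab, hay, hbw, kay,
        kaw⟩ := hYx x hx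
      obtain ⟨k1, k2, k3, -⟩ := hKB k hk
      have x1 : 1 ≤ e x := (hXL x (mXA.1 (mem_inter.1 hx).1).1).2.1
      have hxk : x ∉ ns i k := by
        intro h
        have h1 := P1 x (mXA.1 (mem_inter.1 hx).1).1 k (mem_filter.1 hk).1 h
        have h2 := P2 x (mYA.1 (mem_inter.1 hx).2).1 k (mem_filter.1 hk).1 h
        have h3 := (bU_data H hir hq hg h1.1).1
        have h4 := (bL_data H hir hq hg h2.1).1
        omega
      have n1 : y ≠ k := by
        rintro rfl
        exact hxk hxy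
      obtain ⟨s, s1, s2⟩ := hK.two y yK (hC y yb kay) k k1 k2 n1
      have hs' : s = s0 := by
        rcases hay s s1 with h | h
        · rw [h] at s2
          exact absurd s2 hxk
        · exact h
      rw [hs'] at s2
      exact bad_disj H hir hq hg hd yb k3 n1 ha s2 a0
    have h1 := hsum _ hUn
    rw [hKB0, card_empty]
    omega


end Pool.Agent.GaussPoset.Win.K2
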