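import Pool.Agent.W_448pb_h63.PbA

/-!
Per class identities at the window j (MP_448cb3_co, case B): the number of touched labels and the
inequality of slope two thirds.
-/

namespace Pool.Agent.GaussPoset.Win.K2

set_option linter.unusedSectionVars false

open Finset I2

universe u

variable {P : Type u} [Fintype P] [PartialOrder P] [DecidableEq P] {r i : ℕ} {e : P → ℕ}

variable {ι : Type*} [DecidableEq ι] {κ : P → ι} {K : Finset P} {psi : P → P}

variable {ι' : Type*} [DecidableEq ι'] {κ' : P → ι'}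

/-- an excited cross element touches the label `a` -/
def Tou (i : ℕ) (κ : P → ι) (e : P → ℕ) (a : ι) : Prop :=
  ∃ z, z ∉ cuni (i + 1) κ ∧ 1 ≤ e z ∧ ∃ y, z ≤ y ∧ lev y ≤ i + 1 ∧ κ y = a

/-- every join of a double and a single element of two components of `κ` is in a component
of `κ'` -/
structure Coar (i : ℕ) (κ : P → ι) (κ' : P → ι') : Prop where
  spl : Split (i + 1) κ'
  le : ∀ x y : P, κ x = κ y → κ' x = κ' y
  sd : ∀ z y v : P, SD i κ z y v → κ' y = κ' v

open Classical in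
/-- the excited far or single elements -/
noncomputable def DxD (i : ℕ) (e : P → ℕ) : Finset P := univ.filter (fun x => 1 ≤ e x ∧ Dp i x)

lemma mem_DxD {x : P} : x ∈ DxD i e ↔ 1 ≤ e x ∧ Dp i x := by
  classical
  unfold DxD
  simp

/-- an excited element of level `i + 2` under a touched label -/
lemma touch_q (H : Gr P r) (hκ : Split (i + 1) κ) (hL : AdmL i e) {a : ι} (h : Tou i κ e a) :
    ∃ q p, lev q = i + 2 ∧ 1 ≤ e q ∧ p ∈ uc q ∧ lev p = i + 1 ∧ κ p = a := by
  obtain ⟨z, hz, h0, y, hzy, hly, hy⟩ := h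
  have hl := (two_up H hκ hz).1
  obtain ⟨q, q1, q2, q3⟩ := exists_mid H hzy (k := i + 2) (by omega) (by omega)
  have h2 : q < y := by
    refine lt_of_le_of_ne q2 ?_
    rintro rfl
    omega
  obtain ⟨p, hp, hpy⟩ := exists_covBy_le_of_lt h2
  have h3 := lev_uc H (mem_uc.2 hp)
  refine ⟨q, p, q3, exc_le H hL h0 q1 (by omega), mem_uc.2 hp, by omega, ?_⟩
  rw [hκ.le p hpy (by omega), hy]

/-- elements with the same label of the finer partition -/
lemma cuni_coar (hle : ∀ x y : P, κ x = κ y → κ' x = κ' y) {z : P} (hz : z ∈ cuni (i + 1) κ) :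
    z ∈ cuni (i + 1) κ' := by
  classical
  unfold cuni at hz ⊢
  rw [mem_biUnion] at hz ⊢
  obtain ⟨a, ha, hza⟩ := hz
  obtain ⟨y0, hy0, hl0⟩ := exists_top z
  refine ⟨κ' y0, mem_image_of_mem κ' (mem_univ y0), ?_⟩
  rw [mem_cext] at hza ⊢
  intro y hy hl
  apply hle
  rw [hza y hy hl, hza y0 hy0 (by omega)]

/-- the relation of the injection -/
def Rtd (i : ℕ) (κ : P → ι) (e : P → ℕ) (a : ι) (x : P) : Prop :=
  (lev x = i + 1 ∧ (uc x).card = 1 ∧ κ x = a ∧ 1 ≤ e x) ∨
    (lev x = i + 2 ∧ 1 ≤ e x ∧ (∃ p ∈ uc x, lev p = i + 1 ∧ κ p = a) ∧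
      ∀ v, lev v = i + 1 → (uc v).card = 1 → κ v = a → e v = 0)

lemma Rtd_ex (H : Gr P r) (hκ : Split (i + 1) κ) (hL : AdmL i e) {a : ι} (h : Tou i κ e a) :
    ∃ x ∈ DxD i e, Rtd i κ e a x := by
  obtain ⟨q, p, h1, h2, h3, h4, h5⟩ := touch_q H hκ hL h
  by_cases hv : ∃ v, lev v = i + 1 ∧ (uc v).card = 1 ∧ κ v = a ∧ 1 ≤ e v
  · obtain ⟨v, v1, v2, v3, v4⟩ := hv
    exact ⟨v, mem_DxD.2 ⟨v4, Or.inr ⟨v1, v2⟩⟩, Or.inl ⟨v1, v2, v3, v4⟩⟩
  · push Not at hv
    refine ⟨q, mem_DxD.2 ⟨h2, Or.inl (by omega)⟩, Or.inr ⟨h1, h2, ⟨p, h3, h4, h5⟩, ?_⟩⟩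
    intro v v1 v2 v3
    have := hv v v1 v2 v3
    omega

/-- the upper covers of an element with two given different covers -/
lemma uc_pair (H : Gr P r) {z p p' : P} (hp : p ∈ uc z) (hp' : p' ∈ uc z) (hne : p ≠ p') :
    uc z = {p, p'} := by
  classical
  symm
  apply Finset.eq_of_subset_of_card_le
  · intro x hx
    rw [mem_insert, mem_singleton] at hx
    rcases hx with rfl | rfl
    · exact hp
    · exact hp'
  · rw [Finset.card_pair hne]
    exact uc_card_le H z

lemma Rtd_inj (H : Gr P r) (hκ : Split (i + 1) κ) (hq : NoQ P (i + 2)) (hL : AdmL i e)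
    {a a' : ι} {x : P} (h : Rtd i κ e a x) (h' : Rtd i κ e a' x) : a = a' := by
  rcases h with ⟨h1, h2, h3, h4⟩ | ⟨h1, h2, ⟨p, h3, h4, h5⟩, h6⟩ <;>
    rcases h' with ⟨h1', h2', h3', h4'⟩ | ⟨h1', h2', ⟨p', h3', h4', h5'⟩, h6'⟩
  · rw [← h3, ← h3']
  · omega
  · omega
  · by_contra hne
    have hk : κ p ≠ κ p' := by rw [h5, h5']; exact hne
    have huc := uc_pair H h3 h3' (fun h => hk (by rw [h]))
    have e1 := exc_le H hL h2 (mem_uc.1 h3).le (by omega)
    have e1' := exc_le H hL h2 (mem_uc.1 h3').le (by omega)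
    rcases one_single H hκ hq h1 huc hk with h | h | h
    · have := h6' p' h4' h.2 h5'
      omega
    · have := h6 p h4 h.1 h5
      omega
    · have := h6 p h4 h.1 h5
      omega

/-- a class crossing element is not a value of the injection -/
lemma Rtd_ne (H : Gr P r) (hκ : Split (i + 1) κ) (hq : NoQ P (i + 2)) (hL : AdmL i e)
    (hc : Coar i κ κ') {z0 : P} (hz0 : z0 ∉ cuni (i + 1) κ') {a : ι} {x : P}
    (h : Rtd i κ e a x) : x ≠ z0 := by
  rintro rfl
  have hl := (two_up H hc.spl hz0).1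
  rcases h with ⟨h1, h2, h3, h4⟩ | ⟨h1, h2, ⟨p, h3, h4, h5⟩, h6⟩
  · omega
  · obtain ⟨p1, p2, hk, huc⟩ := So.two_labels H hc.spl hz0 (by omega)
    have key : ∀ p', p' ∈ uc x → κ' p ≠ κ' p' → False := by
      intro p' hp' hk'
      have hkk : κ p ≠ κ p' := fun h => hk' (hc.le _ _ h)
      have huc' := uc_pair H h3 hp' (fun h => hk' (by rw [h]))
      have e1 := exc_le H hL h2 (mem_uc.1 h3).le (by omega)
      rcases one_single H hκ hq h1 huc' hkk with h | h | h
      · exact hk' (hc.sd x p p' ⟨h1, huc', hkk, h.1, h.2⟩)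
      · exact hk' (hc.sd x p' p ⟨h1, by rw [huc', pair_comm], fun h => hkk h.symm, h.2, h.1⟩).symm
      · have := h6 p h4 h.1 h5
        omega
    have h7 := h3
    rw [huc, mem_insert, mem_singleton] at h7
    rcases h7 with h7 | h7
    · exact key p2 (by rw [huc]; exact mem_insert_of_mem (mem_singleton_self _)) (by rw [h7]; exact hk)
    · exact key p1 (by rw [huc]; exact mem_insert_self _ _) (by rw [h7]; exact fun h => hk h.symm)

/-- THE INJECTION of the touched labels into the far and single elements -/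
theorem card_touch (H : Gr P r) (hκ : Split (i + 1) κ) (hq : NoQ P (i + 2)) (hL : AdmL i e)
    {T : Finset ι} (hT : ∀ a ∈ T, Tou i κ e a) : T.card ≤ (DxD i e).card := by
  classical
  refine Finset.card_le_card_of_forall_subsingleton (fun a x => Rtd i κ e a x)
    (fun a ha => Rtd_ex H hκ hL (hT a ha)) ?_
  intro x _ a ha a' ha'
  exact Rtd_inj H hκ hq hL ha.2 ha'.2

theorem card_touch_lt (H : Gr P r) (hκ : Split (i + 1) κ) (hq : NoQ P (i + 2)) (hL : AdmL i e)
    {T : Finset ι} (hT : ∀ a ∈ T, Tou i κ e a) (hc : Coar i κ κ') {z0 : P}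
    (hz0 : z0 ∉ cuni (i + 1) κ') (he0 : 1 ≤ e z0) : T.card + 1 ≤ (DxD i e).card := by
  classical
  have h1 : T.card ≤ ((DxD i e).erase z0).card := by
    refine Finset.card_le_card_of_forall_subsingleton (fun a x => Rtd i κ e a x) ?_ ?_
    · intro a ha
      obtain ⟨x, hx, hr⟩ := Rtd_ex H hκ hL (hT a ha)
      exact ⟨x, mem_erase.2 ⟨Rtd_ne H hκ hq hL hc hz0 hr, hx⟩, hr⟩
    · intro x _ a ha a' ha'
      exact Rtd_inj H hκ hq hL ha.2 ha'.2
  have hl := (two_up H hc.spl hz0).1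
  have h2 : z0 ∈ DxD i e := mem_DxD.2 ⟨he0, Or.inl (by omega)⟩
  have h3 := card_erase_add_one h2
  omega

/-- THE INEQUALITY OF SLOPE TWO THIRDS for a configuration whose labels are touched -/
theorem slope_T (H : Gr P r) (hir : i ≤ r) (hq : NoQ P (i + 2))
    (hg : ∀ m, m + 1 = i → Good P m) (hκ : Split (i + 1) κ) (hM : Mat P i K psi)
    {T : Finset ι} (hK : ∀ a ∈ T, Star i (cext (i + 1) κ a) K)
    (hs : ∀ x, lev x ≤ i + 1 → 1 ≤ e x → κ x ∈ T)
    (hL : AdmL i e) (hU : AdmU i e) (hd : Disjoint (AL i e) (AU i e)) {δ : ℕ}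
    (hδ : T.card + δ ≤ (DxD i e).card) :
    3 * ((AL i e).card + (AU i e).card) + δ ≤
      2 * (∑ x, e x) + 3 * (pL i e + pU i e) + 3 * (SK i K psi e).card := by
  classical
  obtain ⟨XL, XU, hXL, hXU, h1⟩ := main_K hM H hir hq hg hL hU hd (δ := 0) (Or.inl rfl)
  have h2 : ∀ a ∈ T, ((KB i K e).filter (fun x => κ x = a)).card +
      (XL.filter (fun x => κ x = a)).card + (XU.filter (fun x => κ x = a)).card ≤
      ∑ x ∈ (lv P i).filter (fun x => κ x = a), e x + 1 := fun a ha =>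
    star_loc H hir hq hg hκ hM (hK a ha) hd hXL hXU
  have h3 : ∀ S : Finset P, (∀ x ∈ S, κ x ∈ T) →
      ∑ a ∈ T, (S.filter (fun x => κ x = a)).card = S.card := by
    intro S hS
    exact (Finset.card_eq_sum_card_fiberwise hS).symm
  have hKB : ∀ x ∈ KB i K e, κ x ∈ T := by
    intro k hk
    rw [mem_KB] at hk
    have h4 : k ∈ bN i e := by
      unfold bN
      rcases hk.2 with h | h
      · exact mem_union_left _ h.1
      · exact mem_union_right _ h.1
    exact hs k (lev_bN H hir hq hg h4) (by have := (bN_data H hir hq hg h4).2.1; omega)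
  have hXLT : ∀ x ∈ XL, κ x ∈ T := by
    intro x hx
    obtain ⟨l1, l2, -, -⟩ := hXL x hx
    exact hs x (by omega) l2
  have hXUT : ∀ x ∈ XU, κ x ∈ T := by
    intro x hx
    obtain ⟨l1, l2, -, -⟩ := hXU x hx
    exact hs x (by omega) l2
  have h4 := Finset.sum_le_sum h2
  rw [Finset.sum_add_distrib, Finset.sum_add_distrib, Finset.sum_add_distrib, h3 _ hKB,
    h3 _ hXLT, h3 _ hXUT, Finset.sum_const, smul_eq_mul, mul_one] at h4
  have h5 : ∑ a ∈ T, ∑ x ∈ (lv P i).filter (fun x => κ x = a), e x ≤ ∑ x ∈ lv P i, e x := by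
    rw [← Finset.sum_biUnion]
    · refine Finset.sum_le_sum_of_subset ?_
      intro x hx
      rw [mem_biUnion] at hx
      obtain ⟨a, -, hx⟩ := hx
      exact (mem_filter.1 hx).1
    · intro a _ b _ hab
      rw [Function.onFun, disjoint_left]
      intro x hx hx'
      exact hab ((mem_filter.1 hx).2.symm.trans (mem_filter.1 hx').2)
  have h6 : ∑ x, e x = ∑ x ∈ lS P i, e x + ∑ x ∈ uS P i, e x + ∑ x ∈ lv P i, e x := by
    have h6 : (univ : Finset P) = (lS P i ∪ uS P i) ∪ lv P i := by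
      ext x
      simp only [mem_univ, mem_union, mem_lS, mem_uS, mem_lv, true_iff]
      omega
    rw [h6, Finset.sum_union, Finset.sum_union]
    · rw [disjoint_left]
      intro x hx hx'
      rw [mem_lS] at hx
      rw [mem_uS] at hx'
      omega
    · rw [disjoint_left]
      intro x hx hx'
      rw [mem_union, mem_lS, mem_uS] at hx
      rw [mem_lv] at hx'
      omega
  have h7 := ord_le H hir hq hg hL hU (D := DxD i e) (fun x hx => mem_DxD.1 hx)
  omega

end Pool.Agent.GaussPoset.Win.K2
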